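import Pool.Agent.Helper96.NSF.MChain
import Pool.Agent.Helper75.ZZ.CSA
import Pool.Agent.Helper40.Eps.Step

/-!
# Packet CSAG of the campaign NSF: the kernel A at a corner, with an additional condition
-/

open scoped ENNReal
open Finset

namespace Pool.Agent.Helper33.NSF

open Pool.Agent.Helper92.Eps
open Pool.Agent.Helper99.ZZ
open Pool.Agent.Helper96.NSF
open Pool.Agent.Helper75.ZZ
open Helper36.Eps (iv_pos iv_neg iv_mono iv_mul iv_le)

variable {B : Type} {D : ℕ}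

/-! ### Numbers -/

theorem sqrt_two {m A1 A2 y : ℝ≥0∞} (h1 : m ≤ A1) (h2 : m ≤ y ^ 2 * A2) :
    m ≤ (A1 * A2) ^ (1 / 2 : ℝ) * y := by
  calc m = (m ^ 2) ^ (1 / 2 : ℝ) := (sqrt_sq' m).symm
    _ ≤ ((A1 * A2) * y ^ 2) ^ (1 / 2 : ℝ) := by
        refine ENNReal.rpow_le_rpow ?_ (by norm_num)
        calc m ^ 2 = m * m := sq m
          _ ≤ A1 * (y ^ 2 * A2) := mul_le_mul' h1 h2
          _ = _ := by ring
    _ = _ := by
        rw [ENNReal.mul_rpow_of_nonneg _ _ (by norm_num : (0 : ℝ) ≤ 1 / 2), sqrt_sq']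

theorem assemble2 {C' D' b Q θ Θ S V y β β0 τ : ℝ≥0∞} {J ρ a a' : ℕ} (hρ : ρ ≤ J) (hb : 1 ≤ b)
    (hΘ : 1 ≤ Θ) (hτ : 1 / 2 ≤ τ) (hτq : (Θ ^ 2 * θ * b) ^ (1 / 2 : ℝ) ≤ τ) (M : ℕ → ℝ≥0∞)
    (hV : V ≤ ∑ i ∈ range (ρ + 1), Θ ^ (J - i) * M i)
    (h1 : ∀ i ≤ ρ, J ≤ i + a' → M i * S ≤ β)
    (h2 : ∀ i ≤ ρ, M i * S ≤ β0)
    (h3 : ∀ i ≤ ρ, i + a < J → M i * S ≤ C' * Q ^ a * θ ^ (J - i))
    (h4 : ∀ i ≤ ρ, M i * S ≤ y ^ 2 * (D' * b ^ (J - i + 1))) :
    V * S ≤ ((a' + 1) * Θ ^ a' * (D' * b ^ (a' + 1)) ^ (1 / 2 : ℝ) * β ^ (1 / 2 : ℝ) +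
      ((a + 1) * 2 ^ a * Θ ^ a * (β0 * (D' * b ^ (a + 1))) ^ (1 / 2 : ℝ) +
        (C' * D' * b) ^ (1 / 2 : ℝ) * (Q ^ (1 / 2 : ℝ)) ^ a *
          (1 - (Θ ^ 2 * θ * b) ^ (1 / 2 : ℝ))⁻¹) * τ ^ a') * y := by
  set q := (Θ ^ 2 * θ * b) ^ (1 / 2 : ℝ) with hq
  set tα := Θ ^ a' * (β * (D' * b ^ (a' + 1))) ^ (1 / 2 : ℝ) * y with htα
  set tβ := Θ ^ a * (β0 * (D' * b ^ (a + 1))) ^ (1 / 2 : ℝ) * y with htβ
  set tγ := (C' * D' * b) ^ (1 / 2 : ℝ) * (Q ^ (1 / 2 : ℝ)) ^ a * y with htγ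
  have hterm : ∀ i ∈ range (ρ + 1), Θ ^ (J - i) * (M i * S) ≤
      (if J ≤ i + a' then tα else 0) + (if i + a' < J ∧ J ≤ i + a then tβ else 0) +
        (if i + a' < J then tγ * q ^ (J - i) else 0) := by
    intro i hi
    have hi' : i ≤ ρ := by have := Finset.mem_range.mp hi; omega
    have hpow : ∀ k : ℕ, J ≤ i + k → Θ ^ (J - i) ≤ Θ ^ k := fun k hk =>
      pow_le_pow_right₀ hΘ (by omega)
    have hpowb : ∀ k : ℕ, J ≤ i + k → M i * S ≤ y ^ 2 * (D' * b ^ (k + 1)) := fun k hk =>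
      (h4 i hi').trans (mul_le_mul' le_rfl (mul_le_mul' le_rfl
        (pow_le_pow_right₀ hb (by omega))))
    by_cases hA : J ≤ i + a'
    · rw [if_pos hA, if_neg (by omega), if_neg (by omega), add_zero, add_zero, htα, mul_assoc]
      exact mul_le_mul' (hpow _ hA) (sqrt_two (h1 i hi' hA) (hpowb _ hA))
    · rw [if_neg hA, zero_add]
      by_cases hB : J ≤ i + a
      · rw [if_pos ⟨by omega, hB⟩, htβ]
        refine le_add_right ?_
        rw [mul_assoc]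
        exact mul_le_mul' (hpow _ hB) (sqrt_two (h2 i hi') (hpowb _ hB))
      · rw [if_neg (fun h => hB h.2), if_pos (by omega), zero_add, htγ]
        exact geo_term (h3 i hi' (by omega)) (h4 i hi')
  have hsum1 : ∑ i ∈ range (ρ + 1), (if J ≤ i + a' then tα else 0) ≤ ((a' : ℝ≥0∞) + 1) * tα := by
    rw [← Finset.sum_filter, Finset.sum_const, nsmul_eq_mul]
    refine mul_le_mul' ?_ le_rfl
    have hcard : ((range (ρ + 1)).filter fun i => J ≤ i + a').card ≤ a' + 1 := by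
      calc ((range (ρ + 1)).filter fun i => J ≤ i + a').card ≤ (Icc (J - a') J).card := by
            refine Finset.card_le_card fun i hi => ?_
            rw [Finset.mem_filter, Finset.mem_range] at hi
            rw [Finset.mem_Icc]
            omega
        _ ≤ a' + 1 := by rw [Nat.card_Icc]; omega
    calc ((((range (ρ + 1)).filter fun i => J ≤ i + a').card : ℕ) : ℝ≥0∞) ≤ ((a' + 1 : ℕ) : ℝ≥0∞) :=
          Nat.cast_le.2 hcard
      _ = _ := by push_cast; rfl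
  have hsum2 : ∑ i ∈ range (ρ + 1), (if i + a' < J ∧ J ≤ i + a then tβ else 0) ≤
      ((a : ℝ≥0∞) + 1) * tβ * (2 ^ a * τ ^ a') := by
    by_cases haa : a ≤ a'
    · have : ∀ i ∈ range (ρ + 1), (if i + a' < J ∧ J ≤ i + a then tβ else 0) = 0 := by
        intro i _
        rw [if_neg (by omega)]
      rw [Finset.sum_congr rfl this, Finset.sum_const_zero]
      exact zero_le
    · have h5 : (1 : ℝ≥0∞) ≤ 2 ^ a * τ ^ a' := by
        have h6 : (1 : ℝ≥0∞) ≤ 2 * τ := by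
          calc (1 : ℝ≥0∞) = 2 * (1 / 2) := by
                rw [one_div, ENNReal.mul_inv_cancel (by norm_num) (by norm_num)]
            _ ≤ 2 * τ := mul_le_mul' le_rfl hτ
        calc (1 : ℝ≥0∞) ≤ (2 * τ) ^ a' := one_le_pow₀ h6
          _ = 2 ^ a' * τ ^ a' := mul_pow _ _ _
          _ ≤ 2 ^ a * τ ^ a' := mul_le_mul' (pow_le_pow_right₀ (by norm_num) (by omega)) le_rfl
      rw [← Finset.sum_filter, Finset.sum_const, nsmul_eq_mul]
      have hcard : ((range (ρ + 1)).filter fun i => i + a' < J ∧ J ≤ i + a).card ≤ a + 1 := by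
        calc ((range (ρ + 1)).filter fun i => i + a' < J ∧ J ≤ i + a).card ≤
              (Icc (J - a) J).card := by
              refine Finset.card_le_card fun i hi => ?_
              rw [Finset.mem_filter, Finset.mem_range] at hi
              rw [Finset.mem_Icc]
              omega
          _ ≤ a + 1 := by rw [Nat.card_Icc]; omega
      calc ((((range (ρ + 1)).filter fun i => i + a' < J ∧ J ≤ i + a).card : ℕ) : ℝ≥0∞) * tβ
          ≤ ((a + 1 : ℕ) : ℝ≥0∞) * tβ := mul_le_mul' (Nat.cast_le.2 hcard) le_rfl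
        _ = ((a : ℝ≥0∞) + 1) * tβ * 1 := by push_cast; rw [mul_one]
        _ ≤ _ := mul_le_mul' le_rfl h5
  have hsum3 : ∑ i ∈ range (ρ + 1), (if i + a' < J then tγ * q ^ (J - i) else 0) ≤
      tγ * (1 - q)⁻¹ * τ ^ a' := by
    rw [← Finset.sum_filter]
    calc ∑ i ∈ (range (ρ + 1)).filter (fun i => i + a' < J), tγ * q ^ (J - i)
        = ∑ i ∈ (range (ρ + 1)).filter (fun i => i + a' < J),
            tγ * q ^ a' * q ^ (J - a' - i) := by
          refine Finset.sum_congr rfl fun i hi => ?_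
          rw [Finset.mem_filter] at hi
          rw [mul_assoc tγ, ← pow_add]
          congr 2
          omega
      _ ≤ ∑ i ∈ range (J - a' + 1), tγ * q ^ a' * q ^ (J - a' - i) := by
          refine Finset.sum_le_sum_of_subset fun i hi => ?_
          rw [Finset.mem_filter] at hi
          rw [Finset.mem_range]
          omega
      _ = tγ * q ^ a' * ∑ i ∈ range (J - a' + 1), q ^ (J - a' - i) := by rw [Finset.mul_sum]
      _ ≤ tγ * q ^ a' * (1 - q)⁻¹ := mul_le_mul' le_rfl (geo_sum le_rfl q)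
      _ ≤ tγ * τ ^ a' * (1 - q)⁻¹ :=
          mul_le_mul' (mul_le_mul' le_rfl (pow_le_pow_left₀ zero_le hτq _)) le_rfl
      _ = _ := by ring
  calc V * S ≤ (∑ i ∈ range (ρ + 1), Θ ^ (J - i) * M i) * S := mul_le_mul' hV le_rfl
    _ = ∑ i ∈ range (ρ + 1), Θ ^ (J - i) * (M i * S) := by
        rw [Finset.sum_mul]; exact Finset.sum_congr rfl fun i _ => mul_assoc _ _ _
    _ ≤ ∑ i ∈ range (ρ + 1), ((if J ≤ i + a' then tα else 0) +
          (if i + a' < J ∧ J ≤ i + a then tβ else 0) +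
          (if i + a' < J then tγ * q ^ (J - i) else 0)) := Finset.sum_le_sum hterm
    _ ≤ ((a' : ℝ≥0∞) + 1) * tα + ((a : ℝ≥0∞) + 1) * tβ * (2 ^ a * τ ^ a') +
          tγ * (1 - q)⁻¹ * τ ^ a' := by
        rw [Finset.sum_add_distrib, Finset.sum_add_distrib]
        exact add_le_add (add_le_add hsum1 hsum2) hsum3
    _ = _ := by
        rw [htα, htβ, htγ, ENNReal.mul_rpow_of_nonneg β _ (by norm_num : (0 : ℝ) ≤ 1 / 2)]
        ring

/-! ### First passage prefixes -/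

section

variable {A : Alph B D}

theorem fpp_pre_app (c : ℕ) (x y : List B) : A.fpp c x <+: A.fpp c (x ++ y) := by
  induction x generalizing c with
  | nil => simp [Alph.fpp]
  | cons b x ih =>
    rw [List.cons_append, Alph.fpp, Alph.fpp]
    by_cases h : c < A.h b
    · rw [if_pos h, if_pos h]
    · rw [if_neg h, if_neg h]
      exact List.prefix_cons_inj b |>.2 (ih _)

theorem fpp_mono {T' T : ℕ} (h : T' ≤ T) (x : List B) : A.fpp T' x <+: A.fpp T x := by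
  induction x generalizing T' T with
  | nil => simp [Alph.fpp]
  | cons b x ih =>
    rw [Alph.fpp, Alph.fpp]
    by_cases h1 : T' < A.h b
    · rw [if_pos h1]
      by_cases h2 : T < A.h b
      · rw [if_pos h2]
      · rw [if_neg h2]
        exact ⟨_, rfl⟩
    · rw [if_neg h1, if_neg (by omega)]
      exact List.prefix_cons_inj b |>.2 (ih (by omega))

theorem fpp_self {c : ℕ} {s : List B} (h : A.Str c s) : A.fpp c s = s := by
  simpa using Step.fpp_app h []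

theorem fpp_long (hc : Calc A) {c : ℕ} {q : List B} (h : c < A.H q) (t : List B) :
    A.fpp c (q ++ t) = A.fpp c q := by
  obtain ⟨h1, m, h2⟩ := hc.fpp_str c q h
  have h3 : q ++ t = A.fpp c q ++ (m ++ t) := by
    rw [← List.append_assoc, ← h2]
  rw [h3]
  exact Step.fpp_app h1 _

theorem GG_fpp (hc : Calc A) {c r : ℕ} (h : c ≤ r) (φ : List B → ℝ≥0∞) :
    A.GG r (fun p => φ (A.fpp c p)) = A.GG c φ := by
  rw [hc.GG_split c r _ h]
  refine Helper36.Eps.GG_congr hc fun p hp => ?_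
  split_ifs with h1
  · rw [fpp_self hp]
  · have h2 : (fun q => φ (A.fpp c (p ++ q))) = fun _ => φ p := by
      funext q
      rw [Step.fpp_app hp]
    rw [h2, Helper36.Eps.GG_const hc]

theorem RR_fpp (hc : Calc A) (c r : ℕ) (φ : List B → ℝ≥0∞) :
    ∑ c1 ∈ range (r + 1), A.RR c1 (fun q => iv (c < A.H q) (φ (A.fpp c q))) ≤
      A.S r * A.GG c φ := by
  have h1 : ∀ c1 ∈ range (r + 1), A.RR c1 (fun q => iv (c < A.H q) (φ (A.fpp c q))) ≤
      A.GG c (fun p => φ p * iv (A.H p ≤ c1) (A.u (c1 - A.H p))) := by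
    intro c1 _
    by_cases hcc : c < c1
    · rw [hc.RR_split c c1 _ hcc]
      refine hc.GG_mono _ _ _ fun p hp => ?_
      split_ifs with h2
      · rw [iv_pos h2]
        calc A.RR (c1 - A.H p) (fun q => iv (c < A.H (p ++ q)) (φ (A.fpp c (p ++ q))))
            ≤ A.RR (c1 - A.H p) (fun _ => φ p) := by
              refine hc.RR_mono _ _ _ fun q _ => (iv_le _ _).trans ?_
              rw [Step.fpp_app hp]
          _ = φ p * A.u (c1 - A.H p) := Helper36.Eps.RR_const hc _ _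
      · exact zero_le
    · calc A.RR c1 (fun q => iv (c < A.H q) (φ (A.fpp c q))) ≤ A.RR c1 (fun _ => 0) := by
            refine hc.RR_mono _ _ _ fun q hq => ?_
            rw [iv_neg (by omega)]
        _ = 0 := by rw [Helper36.Eps.RR_const hc, zero_mul]
        _ ≤ _ := zero_le
  refine (Finset.sum_le_sum h1).trans ?_
  rw [← Helper36.Eps.GG_sum hc, ← hc.GG_smul]
  refine hc.GG_mono _ _ _ fun p _ => ?_
  rw [← Finset.mul_sum, mul_comm]
  exact mul_le_mul' (sum_u_range _ _) le_rfl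

/-! ### The cheap sums -/

/-- The sum over a tall first leg with start in the scale `i`. -/
theorem T1g (hc : Calc A) {r i : ℕ} {N : List B → ℝ≥0∞} {K : ℝ≥0∞}
    (hN : ∑ c ∈ (range (r + 1)).filter (fun c => Nat.log 2 c = i), A.RR c N ≤ K)
    {x y S : ℝ≥0∞} {om F : List B → ℝ≥0∞}
    (hom : ∀ q, A.H q ≤ r → (∑' b, A.w b * om (q ++ [b])) * S ≤ x ^ 2)
    (hF : ∀ q b, A.H q ≤ r → r < A.H q + A.h b → F (q ++ [b]) ≤ y * N q) :
    A.GG r (fun p1 => iv (Nat.log 2 (A.H p1.dropLast) = i) (om p1 * F p1)) * S ≤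
      x ^ 2 * (y * K) := by
  rw [hc.GG_last, Finset.sum_mul]
  have h1 : ∀ c ∈ range (r + 1), A.RR c (fun p => ∑' b, iv (r < c + A.h b) (A.w b *
      iv (Nat.log 2 (A.H (p ++ [b]).dropLast) = i) (om (p ++ [b]) * F (p ++ [b])))) * S ≤
      iv (Nat.log 2 c = i) (x ^ 2 * (y * A.RR c N)) := by
    intro c hcr
    have hcr' : c ≤ r := by have := Finset.mem_range.mp hcr; omega
    rw [← RR_mul_right hc]
    calc A.RR c (fun p => (∑' b, iv (r < c + A.h b) (A.w b *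
          iv (Nat.log 2 (A.H (p ++ [b]).dropLast) = i) (om (p ++ [b]) * F (p ++ [b])))) * S)
        ≤ A.RR c (fun p => iv (Nat.log 2 c = i) (x ^ 2 * (y * N p))) := by
          refine hc.RR_mono _ _ _ fun p hp => ?_
          by_cases hi : Nat.log 2 c = i
          · rw [iv_pos hi]
            have h2 : ∑' b, iv (r < c + A.h b) (A.w b *
                iv (Nat.log 2 (A.H (p ++ [b]).dropLast) = i) (om (p ++ [b]) * F (p ++ [b]))) ≤
                (∑' b, A.w b * om (p ++ [b])) * (y * N p) := by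
              rw [← ENNReal.tsum_mul_right]
              refine ENNReal.tsum_le_tsum fun b => ?_
              by_cases hb : r < c + A.h b
              · rw [iv_pos hb]
                calc A.w b * iv (Nat.log 2 (A.H (p ++ [b]).dropLast) = i)
                      (om (p ++ [b]) * F (p ++ [b]))
                    ≤ A.w b * (om (p ++ [b]) * (y * N p)) := by
                      refine mul_le_mul' le_rfl ((iv_le _ _).trans (mul_le_mul' le_rfl ?_))
                      exact hF p b (by omega) (by omega)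
                  _ = _ := by ring
              · rw [iv_neg hb]; exact zero_le
            calc _ ≤ (∑' b, A.w b * om (p ++ [b])) * (y * N p) * S := mul_le_mul' h2 le_rfl
              _ = ((∑' b, A.w b * om (p ++ [b])) * S) * (y * N p) := by ring
              _ ≤ _ := mul_le_mul' (hom p (by omega)) le_rfl
          · rw [iv_neg hi]
            have : ∑' b, iv (r < c + A.h b) (A.w b *
                iv (Nat.log 2 (A.H (p ++ [b]).dropLast) = i) (om (p ++ [b]) * F (p ++ [b]))) =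
                0 := by
              rw [ENNReal.tsum_eq_zero]
              intro b
              rw [List.dropLast_concat, hp, iv_neg hi, mul_zero]
              exact le_antisymm (iv_le _ _) zero_le
            rw [this, zero_mul]
      _ = _ := by
          rw [RR_iv hc, hc.RR_smul, hc.RR_smul]
  refine (Finset.sum_le_sum h1).trans ?_
  calc ∑ c ∈ range (r + 1), iv (Nat.log 2 c = i) (x ^ 2 * (y * A.RR c N))
      = ∑ c ∈ (range (r + 1)).filter (fun c => Nat.log 2 c = i), x ^ 2 * (y * A.RR c N) := by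
        have : ∀ c ∈ range (r + 1), iv (Nat.log 2 c = i) (x ^ 2 * (y * A.RR c N)) =
            if Nat.log 2 c = i then x ^ 2 * (y * A.RR c N) else 0 := by
          intro c _
          by_cases h : Nat.log 2 c = i
          · rw [iv_pos h, if_pos h]
          · rw [iv_neg h, if_neg h]
        rw [Finset.sum_congr rfl this, ← Finset.sum_filter]
    _ = x ^ 2 * (y * ∑ c ∈ (range (r + 1)).filter (fun c => Nat.log 2 c = i), A.RR c N) := by
        rw [Finset.mul_sum, Finset.mul_sum]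
    _ ≤ _ := mul_le_mul' le_rfl (mul_le_mul' le_rfl hN)

variable {E : ℕ → List B → List B → Prop}

/-- The mass of the other leg before the row of `q`, or up to the height `c`. -/
noncomputable def NC (A : Alph B D) (E : ℕ → List B → List B → Prop) (c : ℕ) (q : List B) :
    ℝ≥0∞ := if A.H q ≤ c then NN A E q else A.GG c (fun s => iv (E c (A.fpp c q) s) 1)

theorem sum_NC (hc : Calc A) (hr : Ren A) {i c r : ℕ} {K : ℝ≥0∞}
    (hK : ∑ c ∈ Sc i, A.RR c (fun q1 => A.GG (c - 1) (fun p2 => iv (E (c - 1) q1 p2) 1)) ≤ K) :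
    ∑ c1 ∈ (range (r + 1)).filter (fun c1 => Nat.log 2 c1 = i), A.RR c1 (NC A E c) ≤
      K + 1 + A.S r * A.GG c (fun p1 => A.GG c (fun p2 => iv (E c p1 p2) 1)) := by
  have h1 : ∀ c1, A.RR c1 (NC A E c) ≤ A.RR c1 (NN A E) + A.RR c1 (fun q => iv (c < A.H q)
      (A.GG c (fun s => iv (E c (A.fpp c q) s) 1))) := by
    intro c1
    rw [← hc.RR_addf]
    refine hc.RR_mono _ _ _ fun q _ => ?_
    unfold NC
    split_ifs with h
    · exact le_self_add
    · rw [iv_pos (by omega)]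
      exact le_add_self
  refine (Finset.sum_le_sum fun c1 _ => h1 c1).trans ?_
  rw [Finset.sum_add_distrib]
  refine add_le_add ?_ ?_
  · refine le_trans (Finset.sum_le_sum_of_subset fun c1 hc1 => ?_) (sum_NN hc hr hK)
    rw [Finset.mem_filter] at hc1
    unfold Sc
    rw [Finset.mem_filter, Finset.mem_range]
    refine ⟨?_, hc1.2⟩
    rw [← hc1.2]
    exact Nat.lt_pow_succ_log_self (by norm_num) c1
  · refine le_trans (Finset.sum_le_sum_of_subset (Finset.filter_subset _ _)) ?_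
    exact RR_fpp hc c r (fun s1 => A.GG c (fun s => iv (E c s1 s) 1))

/-- The mass of the second leg. -/
theorem n_le2 (hc : Calc A) (hEv : Evt E) {c r : ℕ} (hcr : c ≤ r) {q : List B} {b : B}
    (hqb : r < A.H q + A.h b) :
    A.GG r (fun p2 => iv (E c (A.fpp c (q ++ [b])) (A.fpp c p2)) 1) ≤ NC A E c q := by
  rw [GG_fpp hc hcr (fun s => iv (E c (A.fpp c (q ++ [b])) s) 1)]
  unfold NC
  split_ifs with h
  · have h1 : A.Str c (q ++ [b]) := ⟨by rw [List.dropLast_concat]; exact h, by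
      rw [H_concat]; omega⟩
    rw [fpp_self h1]
    exact n_le hc hEv (List.prefix_append q [b]) h
  · rw [fpp_long hc (by omega)]

/-- The sum over the last block of the second leg. -/
theorem inner_sum (hc : Calc A) {r m : ℕ} {S x : ℝ≥0∞} {R : List B → Prop}
    {om : List B → ℝ≥0∞} (hR : ∀ p b, R (p ++ [b]) → R p)
    (hom : ∀ q, A.H q ≤ r → (∑' b, A.w b * om (q ++ [b])) * S ≤ x ^ 2) :
    A.GG r (fun p2 => iv (R p2 ∧ m ≤ A.H p2.dropLast) (om p2)) * S ≤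
      x ^ 2 * ∑ c ∈ range (r + 1), iv (m ≤ c) (A.RR c (fun q2 => iv (R q2) 1)) := by
  rw [hc.GG_last, Finset.sum_mul]
  calc ∑ c ∈ range (r + 1), A.RR c (fun p => ∑' b, iv (r < c + A.h b) (A.w b *
        iv (R (p ++ [b]) ∧ m ≤ A.H (p ++ [b]).dropLast) (om (p ++ [b])))) * S
      ≤ ∑ c ∈ range (r + 1), x ^ 2 * iv (m ≤ c) (A.RR c (fun q2 => iv (R q2) 1)) := by
        refine Finset.sum_le_sum fun c hcr => ?_
        have hcr' : c ≤ r := by have := Finset.mem_range.mp hcr; omega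
        rw [← RR_mul_right hc, ← RR_iv hc, ← hc.RR_smul]
        refine hc.RR_mono _ _ _ fun p hp => ?_
        have h3 : ∑' b, iv (r < c + A.h b) (A.w b *
            iv (R (p ++ [b]) ∧ m ≤ A.H (p ++ [b]).dropLast) (om (p ++ [b]))) ≤
            iv (m ≤ c) (iv (R p) 1) * ∑' b, A.w b * om (p ++ [b]) := by
          rw [← ENNReal.tsum_mul_left]
          refine ENNReal.tsum_le_tsum fun b => (iv_le _ _).trans ?_
          rw [List.dropLast_concat, hp]
          by_cases h4 : R (p ++ [b]) ∧ m ≤ c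
          · rw [iv_pos h4, iv_pos h4.2, iv_pos (hR p b h4.1), one_mul]
          · rw [iv_neg h4, mul_zero]; exact zero_le
        calc _ ≤ iv (m ≤ c) (iv (R p) 1) * (∑' b, A.w b * om (p ++ [b])) * S :=
              mul_le_mul' h3 le_rfl
          _ = iv (m ≤ c) (iv (R p) 1) * ((∑' b, A.w b * om (p ++ [b])) * S) := by ring
          _ ≤ iv (m ≤ c) (iv (R p) 1) * x ^ 2 := mul_le_mul' le_rfl (hom p (by omega))
          _ = _ := mul_comm _ _
    _ = _ := by rw [Finset.mul_sum]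

/-- The mass of a second leg which starts its tall block not before the first one. -/
theorem inner_ge2 (hc : Calc A) (hr : Ren A) (hEv : Evt E) {J c r : ℕ} (hcr : c ≤ r)
    (hrJ : r ≤ 2 ^ J) {q : List B} {b : B} (hqb : r < A.H q + A.h b)
    {x : ℝ≥0∞} {om : List B → ℝ≥0∞}
    (hom : ∀ q, A.H q ≤ r → (∑' b, A.w b * om (q ++ [b])) * A.S (2 ^ J) ≤ x ^ 2) :
    A.GG r (fun p2 => iv (E c (A.fpp c (q ++ [b])) (A.fpp c p2) ∧ A.H q ≤ A.H p2.dropLast)
      (om p2)) ≤ x ^ 2 * NC A E c q := by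
  set S := A.S (2 ^ J) with hSdef
  have hS0 : S ≠ 0 := S_ne_zero hr _
  have hSt : S ≠ ⊤ := S_ne_top hr _
  set P := A.fpp c (q ++ [b]) with hP
  have hclaim : ∑ c2 ∈ range (r + 1), iv (A.H q ≤ c2)
      (A.RR c2 (fun q2 => iv (E c P (A.fpp c q2)) 1)) ≤ S * NC A E c q := by
    unfold NC
    split_ifs with h
    · have h1 : A.Str c (q ++ [b]) := ⟨by rw [List.dropLast_concat]; exact h, by
        rw [H_concat]; omega⟩
      have hqP : q <+: P := by
        rw [hP, fpp_self h1]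
        exact List.prefix_append q [b]
      unfold NN
      split_ifs with h0
      · rw [mul_one]
        calc ∑ c2 ∈ range (r + 1), iv (A.H q ≤ c2)
              (A.RR c2 (fun q2 => iv (E c P (A.fpp c q2)) 1))
            ≤ ∑ c2 ∈ range (r + 1), A.u c2 := by
              refine Finset.sum_le_sum fun c2 _ => (iv_le _ _).trans ?_
              exact hc.RR_mono _ _ _ fun l _ => iv_le _ _
          _ ≤ S := hr.S_mono _ _ hrJ
      · have h2 : ∀ c2 ∈ range (r + 1), iv (A.H q ≤ c2)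
            (A.RR c2 (fun q2 => iv (E c P (A.fpp c q2)) 1)) ≤
            A.GG (A.H q - 1) (fun s => iv (E (A.H q - 1) q s) (iv (A.H s ≤ c2)
              (A.u (c2 - A.H s)))) := by
          intro c2 _
          by_cases hcq : A.H q ≤ c2
          · rw [iv_pos hcq, hc.RR_split (A.H q - 1) c2 _ (by omega)]
            refine hc.GG_mono _ _ _ fun s hs => ?_
            split_ifs with h3
            · rw [iv_pos h3]
              calc A.RR (c2 - A.H s) (fun t => iv (E c P (A.fpp c (s ++ t))) 1)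
                  ≤ A.RR (c2 - A.H s) (fun _ => iv (E (A.H q - 1) q s) 1) := by
                    refine hc.RR_mono _ _ _ fun t _ => ?_
                    refine iv_mono (fun hE => ?_) fun _ => le_rfl
                    have hst : s <+: A.fpp c (s ++ t) := by
                      have := fpp_mono (A := A) (T' := A.H q - 1) (T := c) (by omega) (s ++ t)
                      rwa [Step.fpp_app hs] at this
                    exact hEv.pre1 hqP (hEv.pre2 hst (hEv.mono (by omega) hE))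
                _ = iv (E (A.H q - 1) q s) (A.u (c2 - A.H s)) := by
                    rw [RR_iv hc]; rfl
            · exact zero_le
          · rw [iv_neg hcq]; exact zero_le
        refine (Finset.sum_le_sum h2).trans ?_
        rw [← Helper36.Eps.GG_sum hc, mul_comm, ← GG_mul_right hc]
        refine hc.GG_mono _ _ _ fun s _ => ?_
        by_cases hE : E (A.H q - 1) q s
        · simp only [iv_pos hE, one_mul]
          exact (sum_u_range _ _).trans (hr.S_mono _ _ hrJ)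
        · simp only [iv_neg hE, Finset.sum_const_zero]
          exact zero_le
    · have hPq : P = A.fpp c q := by rw [hP, fpp_long hc (by omega)]
      calc ∑ c2 ∈ range (r + 1), iv (A.H q ≤ c2)
            (A.RR c2 (fun q2 => iv (E c P (A.fpp c q2)) 1))
          ≤ ∑ c2 ∈ range (r + 1), A.RR c2 (fun q2 => iv (c < A.H q2)
              (iv (E c P (A.fpp c q2)) 1)) := by
            refine Finset.sum_le_sum fun c2 _ => ?_
            rw [← RR_iv hc]
            refine hc.RR_mono _ _ _ fun q2 hq2 => ?_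
            exact iv_mono (fun h5 => by omega) fun _ => le_rfl
        _ ≤ A.S r * A.GG c (fun s => iv (E c P s) 1) := RR_fpp hc c r _
        _ ≤ _ := by
            rw [hPq]
            exact mul_le_mul' (hr.S_mono _ _ hrJ) le_rfl
  have h2 : A.GG r (fun p2 => iv (E c P (A.fpp c p2) ∧ A.H q ≤ A.H p2.dropLast) (om p2)) * S ≤
      x ^ 2 * NC A E c q * S := by
    refine (inner_sum hc (R := fun p2 => E c P (A.fpp c p2)) (m := A.H q)
      (fun p b hE => hEv.pre2 (fpp_pre_app c p [b]) hE) hom).trans ?_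
    calc x ^ 2 * ∑ c2 ∈ range (r + 1), iv (A.H q ≤ c2)
          (A.RR c2 (fun q2 => iv (E c P (A.fpp c q2)) 1)) ≤ x ^ 2 * (S * NC A E c q) :=
          mul_le_mul' le_rfl hclaim
      _ = _ := by ring
  exact (ENNReal.mul_le_mul_iff_left hS0 hSt).mp h2

/-- Tall blocks with an early start. -/
theorem K3g (hc : Calc A) {c r J i lo : ℕ} (hcr : c ≤ r) (hi : 2 ^ (i + 1) ≤ c)
    (hlo : r ≤ lo) :
    A.GG r (fun p1 => A.GG r (fun p2 => iv (E c (A.fpp c p1) (A.fpp c p2) ∧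
      Nat.log 2 (A.H p1.dropLast) = i ∧ lo < A.H p1 ∧ A.H p1 ≤ lo + 2 ^ J) 1)) ≤
    A.GG c (fun p1 => A.GG c (fun p2 => iv (E c p1 p2 ∧
      Nat.log 2 (A.H p1.dropLast) = i ∧ lo < A.H p1 ∧ A.H p1 ≤ lo + 2 ^ J) 1)) := by
  have h1 : ∀ p1, A.GG r (fun p2 => iv (E c (A.fpp c p1) (A.fpp c p2) ∧
      Nat.log 2 (A.H p1.dropLast) = i ∧ lo < A.H p1 ∧ A.H p1 ≤ lo + 2 ^ J) 1) =
      A.GG c (fun s => iv (E c (A.fpp c p1) s ∧
      Nat.log 2 (A.H p1.dropLast) = i ∧ lo < A.H p1 ∧ A.H p1 ≤ lo + 2 ^ J) 1) := fun p1 =>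
    GG_fpp hc hcr (fun s => iv (E c (A.fpp c p1) s ∧
      Nat.log 2 (A.H p1.dropLast) = i ∧ lo < A.H p1 ∧ A.H p1 ≤ lo + 2 ^ J) 1)
  simp only [h1]
  rw [Helper36.Eps.GG_eq A r, Helper36.Eps.GG_eq A c]
  refine ENNReal.tsum_le_tsum fun p1 => ?_
  by_cases h2 : Nat.log 2 (A.H p1.dropLast) = i ∧ lo < A.H p1
  · have h3 : A.H p1.dropLast < 2 ^ (i + 1) := by
      rw [← h2.1]
      exact Nat.lt_pow_succ_log_self (by norm_num) _
    have h4 : A.Str c p1 := ⟨by omega, by omega⟩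
    rw [fpp_self h4]
    refine mul_le_mul' ?_ le_rfl
    exact iv_mono (fun _ => h4) fun _ => le_rfl
  · have h3 : A.GG c (fun s => iv (E c (A.fpp c p1) s ∧
        Nat.log 2 (A.H p1.dropLast) = i ∧ lo < A.H p1 ∧ A.H p1 ≤ lo + 2 ^ J) 1) = 0 := by
      have : (fun s => iv (E c (A.fpp c p1) s ∧
        Nat.log 2 (A.H p1.dropLast) = i ∧ lo < A.H p1 ∧ A.H p1 ≤ lo + 2 ^ J) (1 : ℝ≥0∞)) =
          fun _ => 0 := by
        funext s
        exact iv_neg (fun h => h2 ⟨h.2.1, h.2.2.1⟩) _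
      rw [this, Helper36.Eps.GG_zero hc]
    rw [h3, mul_zero]
    exact zero_le

/-! ### The cases -/

/-- The inputs at the height `2 ^ (J - a)`. -/
structure Inp (A : Alph B D) (E : ℕ → List B → List B → Prop) (J a : ℕ)
    (β0 C Q θ K0 b : ℝ≥0∞) : Prop where
  ev : Evt E
  k1 : A.GG (2 ^ (J - a)) (fun p1 => A.GG (2 ^ (J - a)) (fun p2 =>
    iv (E (2 ^ (J - a)) p1 p2) 1)) * A.S (2 ^ J) ≤ β0
  k3 : ∀ i lo, i ≤ J - a → 2 ^ (J - a + 1) ≤ lo → A.GG (2 ^ (J - a)) (fun p1 =>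
    A.GG (2 ^ (J - a)) (fun p2 => iv (E (2 ^ (J - a)) p1 p2 ∧
      Nat.log 2 (A.H p1.dropLast) = i ∧ lo < A.H p1 ∧ A.H p1 ≤ lo + 2 ^ J) 1)) * A.S (2 ^ J) ≤
    C * Q ^ a * θ ^ (J - i)
  chp : ∀ i ≤ J, ∑ c ∈ Sc i, A.RR c (fun q1 => A.GG (c - 1) (fun p2 =>
    iv (E (c - 1) q1 p2) 1)) ≤ K0 * b ^ (J - i + 1)

/-- The constant of the cheap bounds. -/
noncomputable def D2 (K0 β0 : ℝ≥0∞) : ℝ≥0∞ := 2 * (K0 + 1 + β0)

theorem cheap_const {K0 β0 b X : ℝ≥0∞} (hb : 1 ≤ b) (hX : X ≤ β0) (k : ℕ) :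
    K0 * b ^ k + 1 + X ≤ (K0 + 1 + β0) * b ^ k := by
  have h1 : 1 ≤ b ^ k := one_le_pow₀ hb
  calc K0 * b ^ k + 1 + X ≤ K0 * b ^ k + 1 * b ^ k + β0 * b ^ k := by
        refine add_le_add (add_le_add le_rfl ?_) ?_
        · rw [one_mul]; exact h1
        · calc X ≤ β0 * 1 := by rw [mul_one]; exact hX
            _ ≤ β0 * b ^ k := mul_le_mul' le_rfl h1
    _ = _ := by ring

theorem pair_le (hc : Calc A) {c r : ℕ} (hcr : c ≤ r) {φ : List B → List B → ℝ≥0∞}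
    (h : ∀ p1 p2, φ p1 p2 ≤ iv (E c (A.fpp c p1) (A.fpp c p2)) 1) :
    A.GG r (fun p1 => A.GG r (fun p2 => φ p1 p2)) ≤
      A.GG c (fun p1 => A.GG c (fun p2 => iv (E c p1 p2) 1)) := by
  calc A.GG r (fun p1 => A.GG r (fun p2 => φ p1 p2))
      ≤ A.GG r (fun p1 => A.GG r (fun p2 => iv (E c (A.fpp c p1) (A.fpp c p2)) 1)) :=
        hc.GG_mono _ _ _ fun p1 _ => hc.GG_mono _ _ _ fun p2 _ => h p1 p2
    _ = A.GG r (fun p1 => A.GG c (fun p2 => iv (E c (A.fpp c p1) p2) 1)) := by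
        congr 1
        funext p1
        exact GG_fpp hc hcr (fun s => iv (E c (A.fpp c p1) s) 1)
    _ = _ := GG_fpp hc hcr (fun s => A.GG c (fun p2 => iv (E c s p2) 1))

/-- One tall end. -/
theorem tn (hc : Calc A) (hr : Ren A) {J a a' ρ : ℕ} (ha : a ≤ J) (hρ : ρ ≤ J)
    (haρ : J - a ≤ ρ) {β0 C b Q θ Θ K0 τ : ℝ≥0∞} (hb : 1 ≤ b) (hΘ : 1 ≤ Θ) (hτ : 1 / 2 ≤ τ)
    (hτq : (Θ ^ 2 * θ * b) ^ (1 / 2 : ℝ) ≤ τ) (hI : Inp A E J a β0 C Q θ K0 b)
    {P : List B → List B → Prop} {β : ℝ≥0∞}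
    (hβ : A.GG (2 ^ ρ) (fun p1 => A.GG (2 ^ ρ) (fun p2 => iv (E (2 ^ (J - a))
      (A.fpp (2 ^ (J - a)) p1) (A.fpp (2 ^ (J - a)) p2) ∧ P p1 p2 ∧ Scl A J (2 ^ ρ) a' p1 ∧
      Scl A J (2 ^ ρ) a' p2) 1)) * A.S (2 ^ J) ≤ β)
    {x1 : ℝ≥0∞} {om1 om2 : List B → ℝ≥0∞} {lo : ℕ} (hle1 : ∀ p, om1 p ≤ 1)
    (hle2 : ∀ p, om2 p ≤ 1) (h1 : TL A J (2 ^ ρ) lo x1 om1)
    (h2 : ∀ p, om2 p ≠ 0 → ¬ Tall A (2 ^ ρ) p) :
    A.GG (2 ^ ρ) (fun p1 => A.GG (2 ^ ρ) (fun p2 => om1 p1 * om2 p2 *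
      iv (P p1 p2) (kt A E J Θ (2 ^ (J - a)) (2 ^ ρ) p1 p2))) * A.S (2 ^ J) ≤
    ((a' + 1) * Θ ^ a' * (D2 K0 β0 * b ^ (a' + 1)) ^ (1 / 2 : ℝ) * β ^ (1 / 2 : ℝ) +
      ((a + 1) * 2 ^ a * Θ ^ a * (β0 * (D2 K0 β0 * b ^ (a + 1))) ^ (1 / 2 : ℝ) +
        (2 * C * D2 K0 β0 * b) ^ (1 / 2 : ℝ) * (Q ^ (1 / 2 : ℝ)) ^ a *
          (1 - (Θ ^ 2 * θ * b) ^ (1 / 2 : ℝ))⁻¹) * τ ^ a') * x1 := by
  set r := 2 ^ ρ with hrdef
  set c := 2 ^ (J - a) with hcdef
  have hcr : c ≤ r := Nat.pow_le_pow_right (by norm_num) haρ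
  have hrJ : r ≤ 2 ^ J := Nat.pow_le_pow_right (by norm_num) hρ
  refine assemble2 hρ hb hΘ hτ hτq (fun i => A.GG r (fun p1 => A.GG r (fun p2 =>
    iv (E c (A.fpp c p1) (A.fpp c p2) ∧ P p1 p2 ∧ Nat.log 2 (A.H p1.dropLast) = i)
      (om1 p1 * om2 p2)))) ?_ ?_ ?_ ?_ ?_
  · rw [← GG2_sum hc r (range (ρ + 1)) (fun i => Θ ^ (J - i)) (fun i p1 p2 =>
      iv (E c (A.fpp c p1) (A.fpp c p2) ∧ P p1 p2 ∧ Nat.log 2 (A.H p1.dropLast) = i)
      (om1 p1 * om2 p2))]
    refine hc.GG_mono _ _ _ fun p1 hp1 => hc.GG_mono _ _ _ fun p2 _ => ?_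
    by_cases h0 : om1 p1 * om2 p2 = 0
    · rw [h0, zero_mul]; exact zero_le
    have ht1 : Tall A r p1 := (h1.2.1 p1 (left_ne_zero_of_mul h0)).1
    have ht2 : ¬ Tall A r p2 := h2 p2 (right_ne_zero_of_mul h0)
    have hk : kw A J Θ r p1 p2 = Θ ^ (J - Nat.log 2 (A.H p1.dropLast)) := by
      unfold kw
      rw [tw_tall ht1, tw_not ht2, max_eq_left (one_le_pow₀ hΘ)]
    unfold kt
    rw [hk]
    have hi := log_le (A := A) hrdef hp1
    refine le_trans (le_of_eq ?_) (Finset.single_le_sum (f := fun i => Θ ^ (J - i) *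
      iv (E c (A.fpp c p1) (A.fpp c p2) ∧ P p1 p2 ∧ Nat.log 2 (A.H p1.dropLast) = i)
        (om1 p1 * om2 p2))
      (fun _ _ => zero_le) (Finset.mem_range.mpr (Nat.lt_succ_of_le hi)))
    by_cases hP : P p1 p2
    · rw [iv_pos hP]
      by_cases hE : E c (A.fpp c p1) (A.fpp c p2)
      · rw [iv_pos hE, iv_pos ⟨hE, hP, rfl⟩, mul_comm]
      · rw [iv_neg hE, iv_neg (fun h => hE h.1), mul_zero, mul_zero]
    · rw [iv_neg hP, iv_neg (fun h => hP h.2.1), mul_zero, mul_zero]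
  · intro i _ hia
    refine le_trans (mul_le_mul' ?_ le_rfl) hβ
    refine hc.GG_mono _ _ _ fun p1 _ => hc.GG_mono _ _ _ fun p2 _ => ?_
    by_cases h0 : om1 p1 * om2 p2 = 0
    · rw [h0]
      exact (iv_le _ _).trans zero_le
    refine iv_mono (fun h => ⟨h.1, h.2.1, fun _ => ?_, fun h3 => ?_⟩) fun _ => ?_
    · rw [h.2.2]; exact hia
    · exact absurd h3 (h2 p2 (right_ne_zero_of_mul h0))
    · calc om1 p1 * om2 p2 ≤ 1 * 1 := mul_le_mul' (hle1 _) (hle2 _)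
        _ = 1 := one_mul 1
  · intro i _
    refine le_trans (mul_le_mul' (pair_le (E := E) hc hcr fun p1 p2 => ?_) le_rfl) hI.k1
    refine iv_mono (fun h => h.1) fun _ => ?_
    calc om1 p1 * om2 p2 ≤ 1 * 1 := mul_le_mul' (hle1 _) (hle2 _)
      _ = 1 := one_mul 1
  · intro i _ hia
    have h3 : A.GG r (fun p1 => A.GG r (fun p2 => iv (E c (A.fpp c p1) (A.fpp c p2) ∧
        P p1 p2 ∧ Nat.log 2 (A.H p1.dropLast) = i) (om1 p1 * om2 p2))) ≤
        A.GG r (fun p1 => A.GG r (fun p2 => iv (E c (A.fpp c p1) (A.fpp c p2) ∧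
      Nat.log 2 (A.H p1.dropLast) = i ∧ lo < A.H p1 ∧ A.H p1 ≤ lo + 2 ^ J) 1)) := by
      refine hc.GG_mono _ _ _ fun p1 _ => hc.GG_mono _ _ _ fun p2 _ => ?_
      by_cases h0 : om1 p1 * om2 p2 = 0
      · rw [h0]
        exact (iv_le _ _).trans zero_le
      have hw := (h1.2.1 p1 (left_ne_zero_of_mul h0)).2
      refine iv_mono (fun h => ⟨h.1, h.2.2, hw⟩) fun _ => ?_
      calc om1 p1 * om2 p2 ≤ 1 * 1 := mul_le_mul' (hle1 _) (hle2 _)
        _ = 1 := one_mul 1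
    have hlo := h1.1
    have h4 : 2 ^ (i + 1) ≤ c := Nat.pow_le_pow_right (by norm_num) (by omega)
    refine (mul_le_mul' (h3.trans (K3g hc hcr h4 (by omega))) le_rfl).trans ?_
    refine (hI.k3 i lo (by omega) (by rw [pow_succ]; omega)).trans ?_
    calc C * Q ^ a * θ ^ (J - i) = 1 * (C * Q ^ a * θ ^ (J - i)) := (one_mul _).symm
      _ ≤ 2 * (C * Q ^ a * θ ^ (J - i)) := mul_le_mul' (by norm_num) le_rfl
      _ = _ := by ring
  · intro i hi
    have h3 : A.GG r (fun p1 => A.GG r (fun p2 => iv (E c (A.fpp c p1) (A.fpp c p2) ∧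
        P p1 p2 ∧ Nat.log 2 (A.H p1.dropLast) = i) (om1 p1 * om2 p2))) ≤
        A.GG r (fun p1 => iv (Nat.log 2 (A.H p1.dropLast) = i)
          (om1 p1 * A.GG r (fun p2 => iv (E c (A.fpp c p1) (A.fpp c p2)) 1))) := by
      refine hc.GG_mono _ _ _ fun p1 _ => ?_
      rw [← hc.GG_smul, ← GG_iv' hc]
      refine hc.GG_mono _ _ _ fun p2 _ => ?_
      by_cases h4 : Nat.log 2 (A.H p1.dropLast) = i
      · rw [iv_pos h4]
        by_cases h5 : E c (A.fpp c p1) (A.fpp c p2)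
        · rw [iv_pos h5]
          exact (iv_le _ _).trans (mul_le_mul' le_rfl (hle2 p2))
        · rw [iv_neg (fun h => h5 h.1)]; exact zero_le
      · rw [iv_neg (fun h => h4 h.2.2)]; exact zero_le
    refine (mul_le_mul' h3 le_rfl).trans ((T1g hc (sum_NC (c := c) hc hr
      (hI.chp i (by omega))) (y := 1) h1.2.2 fun q b hq hqb => ?_).trans ?_)
    · rw [one_mul]
      exact n_le2 hc hI.ev hcr hqb
    · refine mul_le_mul' le_rfl ?_
      rw [one_mul]
      have h6 : A.S r * A.GG c (fun p1 => A.GG c (fun p2 => iv (E c p1 p2) 1)) ≤ β0 := by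
        rw [mul_comm]
        exact (mul_le_mul' le_rfl (hr.S_mono _ _ hrJ)).trans hI.k1
      refine (cheap_const hb h6 _).trans ?_
      unfold D2
      calc (K0 + 1 + β0) * b ^ (J - i + 1) = 1 * ((K0 + 1 + β0) * b ^ (J - i + 1)) :=
            (one_mul _).symm
        _ ≤ 2 * ((K0 + 1 + β0) * b ^ (J - i + 1)) := mul_le_mul' (by norm_num) le_rfl
        _ = _ := by ring

/-- Two tall ends. -/
theorem tt2 (hc : Calc A) (hr : Ren A) {J a a' ρ : ℕ} (ha : a ≤ J) (hρ : ρ ≤ J)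
    (haρ : J - a ≤ ρ) {β0 C b Q θ Θ K0 τ : ℝ≥0∞} (hb : 1 ≤ b) (hΘ : 1 ≤ Θ) (hτ : 1 / 2 ≤ τ)
    (hτq : (Θ ^ 2 * θ * b) ^ (1 / 2 : ℝ) ≤ τ) (hI : Inp A E J a β0 C Q θ K0 b)
    (hI' : Inp A (fun T x y => E T y x) J a β0 C Q θ K0 b)
    {P : List B → List B → Prop} {β : ℝ≥0∞}
    (hβ : A.GG (2 ^ ρ) (fun p1 => A.GG (2 ^ ρ) (fun p2 => iv (E (2 ^ (J - a))
      (A.fpp (2 ^ (J - a)) p1) (A.fpp (2 ^ (J - a)) p2) ∧ P p1 p2 ∧ Scl A J (2 ^ ρ) a' p1 ∧
      Scl A J (2 ^ ρ) a' p2) 1)) * A.S (2 ^ J) ≤ β)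
    {x1 x2 : ℝ≥0∞} {om1 om2 : List B → ℝ≥0∞} {lo lo' : ℕ} (hle1 : ∀ p, om1 p ≤ 1)
    (hle2 : ∀ p, om2 p ≤ 1) (h1 : TL A J (2 ^ ρ) lo x1 om1) (h2 : TL A J (2 ^ ρ) lo' x2 om2) :
    A.GG (2 ^ ρ) (fun p1 => A.GG (2 ^ ρ) (fun p2 => om1 p1 * om2 p2 *
      iv (P p1 p2) (kt A E J Θ (2 ^ (J - a)) (2 ^ ρ) p1 p2))) * A.S (2 ^ J) ≤
    ((a' + 1) * Θ ^ a' * (D2 K0 β0 * b ^ (a' + 1)) ^ (1 / 2 : ℝ) * β ^ (1 / 2 : ℝ) +
      ((a + 1) * 2 ^ a * Θ ^ a * (β0 * (D2 K0 β0 * b ^ (a + 1))) ^ (1 / 2 : ℝ) +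
        (2 * C * D2 K0 β0 * b) ^ (1 / 2 : ℝ) * (Q ^ (1 / 2 : ℝ)) ^ a *
          (1 - (Θ ^ 2 * θ * b) ^ (1 / 2 : ℝ))⁻¹) * τ ^ a') * (x1 * x2) := by
  set r := 2 ^ ρ with hrdef
  set c := 2 ^ (J - a) with hcdef
  have hcr : c ≤ r := Nat.pow_le_pow_right (by norm_num) haρ
  have hrJ : r ≤ 2 ^ J := Nat.pow_le_pow_right (by norm_num) hρ
  have hlo := h1.1
  have hlo' := h2.1
  refine assemble2 hρ hb hΘ hτ hτq (fun i => A.GG r (fun p1 => A.GG r (fun p2 =>
    iv (E c (A.fpp c p1) (A.fpp c p2) ∧ P p1 p2 ∧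
      min (Nat.log 2 (A.H p1.dropLast)) (Nat.log 2 (A.H p2.dropLast)) = i)
      (om1 p1 * om2 p2)))) ?_ ?_ ?_ ?_ ?_
  · rw [← GG2_sum hc r (range (ρ + 1)) (fun i => Θ ^ (J - i)) (fun i p1 p2 =>
      iv (E c (A.fpp c p1) (A.fpp c p2) ∧ P p1 p2 ∧
      min (Nat.log 2 (A.H p1.dropLast)) (Nat.log 2 (A.H p2.dropLast)) = i)
      (om1 p1 * om2 p2))]
    refine hc.GG_mono _ _ _ fun p1 hp1 => hc.GG_mono _ _ _ fun p2 hp2 => ?_
    by_cases h0 : om1 p1 * om2 p2 = 0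
    · rw [h0, zero_mul]; exact zero_le
    have ht1 : Tall A r p1 := (h1.2.1 p1 (left_ne_zero_of_mul h0)).1
    have ht2 : Tall A r p2 := (h2.2.1 p2 (right_ne_zero_of_mul h0)).1
    set i1 := Nat.log 2 (A.H p1.dropLast) with hi1
    set i2 := Nat.log 2 (A.H p2.dropLast) with hi2
    have hk : kw A J Θ r p1 p2 = Θ ^ (J - min i1 i2) := by
      unfold kw
      rw [tw_tall ht1, tw_tall ht2]
      rcases le_total i1 i2 with h | h
      · rw [min_eq_left h, max_eq_left (pow_le_pow_right₀ hΘ (by omega))]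
      · rw [min_eq_right h, max_eq_right (pow_le_pow_right₀ hΘ (by omega))]
    unfold kt
    rw [hk]
    have hi : min i1 i2 ≤ ρ := (min_le_left _ _).trans (log_le (A := A) hrdef hp1)
    refine le_trans (le_of_eq ?_) (Finset.single_le_sum (f := fun i => Θ ^ (J - i) *
      iv (E c (A.fpp c p1) (A.fpp c p2) ∧ P p1 p2 ∧ min i1 i2 = i) (om1 p1 * om2 p2))
      (fun _ _ => zero_le) (Finset.mem_range.mpr (Nat.lt_succ_of_le hi)))
    by_cases hP : P p1 p2
    · rw [iv_pos hP]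
      by_cases hE : E c (A.fpp c p1) (A.fpp c p2)
      · rw [iv_pos hE, iv_pos ⟨hE, hP, rfl⟩, mul_comm]
      · rw [iv_neg hE, iv_neg (fun h => hE h.1), mul_zero, mul_zero]
    · rw [iv_neg hP, iv_neg (fun h => hP h.2.1), mul_zero, mul_zero]
  · intro i _ hia
    refine le_trans (mul_le_mul' ?_ le_rfl) hβ
    refine hc.GG_mono _ _ _ fun p1 _ => hc.GG_mono _ _ _ fun p2 _ => ?_
    refine iv_mono (fun h => ⟨h.1, h.2.1, fun _ => ?_, fun _ => ?_⟩) fun _ => ?_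
    · have := h.2.2
      have h5 := min_le_left (Nat.log 2 (A.H p1.dropLast)) (Nat.log 2 (A.H p2.dropLast))
      omega
    · have := h.2.2
      have h5 := min_le_right (Nat.log 2 (A.H p1.dropLast)) (Nat.log 2 (A.H p2.dropLast))
      omega
    · calc om1 p1 * om2 p2 ≤ 1 * 1 := mul_le_mul' (hle1 _) (hle2 _)
        _ = 1 := one_mul 1
  · intro i _
    refine le_trans (mul_le_mul' (pair_le (E := E) hc hcr fun p1 p2 => ?_) le_rfl) hI.k1
    refine iv_mono (fun h => h.1) fun _ => ?_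
    calc om1 p1 * om2 p2 ≤ 1 * 1 := mul_le_mul' (hle1 _) (hle2 _)
      _ = 1 := one_mul 1
  · intro i _ hia
    have h4 : 2 ^ (i + 1) ≤ c := Nat.pow_le_pow_right (by norm_num) (by omega)
    have h3 : A.GG r (fun p1 => A.GG r (fun p2 => iv (E c (A.fpp c p1) (A.fpp c p2) ∧
        P p1 p2 ∧ min (Nat.log 2 (A.H p1.dropLast)) (Nat.log 2 (A.H p2.dropLast)) = i)
        (om1 p1 * om2 p2))) ≤
        A.GG r (fun p1 => A.GG r (fun p2 => iv (E c (A.fpp c p1) (A.fpp c p2) ∧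
      Nat.log 2 (A.H p1.dropLast) = i ∧ lo < A.H p1 ∧ A.H p1 ≤ lo + 2 ^ J) 1)) +
        A.GG r (fun p2 => A.GG r (fun p1 => iv (E c (A.fpp c p1) (A.fpp c p2) ∧
      Nat.log 2 (A.H p2.dropLast) = i ∧ lo' < A.H p2 ∧ A.H p2 ≤ lo' + 2 ^ J) 1)) := by
      rw [Helper36.Eps.GG_comm r r (fun p2 p1 => iv (E c (A.fpp c p1) (A.fpp c p2) ∧
      Nat.log 2 (A.H p2.dropLast) = i ∧ lo' < A.H p2 ∧ A.H p2 ≤ lo' + 2 ^ J) 1), ← hc.GG_addf]
      refine hc.GG_mono _ _ _ fun p1 _ => ?_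
      rw [← hc.GG_addf]
      refine hc.GG_mono _ _ _ fun p2 _ => ?_
      by_cases h0 : om1 p1 * om2 p2 = 0
      · rw [h0]
        exact (iv_le _ _).trans zero_le
      have hw := (h1.2.1 p1 (left_ne_zero_of_mul h0)).2
      have hw' := (h2.2.1 p2 (right_ne_zero_of_mul h0)).2
      have hle : om1 p1 * om2 p2 ≤ 1 := by
        calc om1 p1 * om2 p2 ≤ 1 * 1 := mul_le_mul' (hle1 _) (hle2 _)
          _ = 1 := one_mul 1
      rcases le_total (Nat.log 2 (A.H p1.dropLast)) (Nat.log 2 (A.H p2.dropLast)) with hh | hh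
      · rw [min_eq_left hh]
        exact le_add_right (iv_mono (fun h => ⟨h.1, h.2.2, hw⟩) fun _ => hle)
      · rw [min_eq_right hh]
        exact le_add_left (iv_mono (fun h => ⟨h.1, h.2.2, hw'⟩) fun _ => hle)
    refine (mul_le_mul' h3 le_rfl).trans ?_
    rw [add_mul]
    have e1 := (mul_le_mul' (K3g (E := E) (J := J) (lo := lo) hc hcr h4 (by omega))
      (le_refl (A.S (2 ^ J)))).trans
      (hI.k3 i lo (by omega) (by rw [pow_succ]; omega))
    have e2 := (mul_le_mul' (K3g (E := fun T x y => E T y x) (J := J) (lo := lo') hc hcr h4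
      (by omega)) (le_refl (A.S (2 ^ J)))).trans
      (hI'.k3 i lo' (by omega) (by rw [pow_succ]; omega))
    calc _ ≤ C * Q ^ a * θ ^ (J - i) + C * Q ^ a * θ ^ (J - i) := add_le_add e1 e2
      _ = _ := by ring
  · intro i hi
    have h3 : A.GG r (fun p1 => A.GG r (fun p2 => iv (E c (A.fpp c p1) (A.fpp c p2) ∧
        P p1 p2 ∧ min (Nat.log 2 (A.H p1.dropLast)) (Nat.log 2 (A.H p2.dropLast)) = i)
          (om1 p1 * om2 p2))) ≤
        A.GG r (fun p1 => iv (Nat.log 2 (A.H p1.dropLast) = i)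
          (om1 p1 * A.GG r (fun p2 => iv (E c (A.fpp c p1) (A.fpp c p2) ∧
            A.H p1.dropLast ≤ A.H p2.dropLast) (om2 p2)))) +
        A.GG r (fun p2 => iv (Nat.log 2 (A.H p2.dropLast) = i)
          (om2 p2 * A.GG r (fun p1 => iv (E c (A.fpp c p1) (A.fpp c p2) ∧
            A.H p2.dropLast ≤ A.H p1.dropLast) (om1 p1)))) := by
      have e1 : A.GG r (fun p1 => iv (Nat.log 2 (A.H p1.dropLast) = i)
          (om1 p1 * A.GG r (fun p2 => iv (E c (A.fpp c p1) (A.fpp c p2) ∧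
            A.H p1.dropLast ≤ A.H p2.dropLast)
            (om2 p2)))) = A.GG r (fun p1 => A.GG r (fun p2 =>
          iv (Nat.log 2 (A.H p1.dropLast) = i) (om1 p1 *
            iv (E c (A.fpp c p1) (A.fpp c p2) ∧
            A.H p1.dropLast ≤ A.H p2.dropLast) (om2 p2)))) := by
        simp only [GG_iv' hc, hc.GG_smul]
      have e2 : A.GG r (fun p2 => iv (Nat.log 2 (A.H p2.dropLast) = i)
          (om2 p2 * A.GG r (fun p1 => iv (E c (A.fpp c p1) (A.fpp c p2) ∧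
            A.H p2.dropLast ≤ A.H p1.dropLast)
            (om1 p1)))) = A.GG r (fun p1 => A.GG r (fun p2 =>
          iv (Nat.log 2 (A.H p2.dropLast) = i) (om2 p2 *
            iv (E c (A.fpp c p1) (A.fpp c p2) ∧
            A.H p2.dropLast ≤ A.H p1.dropLast) (om1 p1)))) := by
        rw [Helper36.Eps.GG_comm r r (fun p1 p2 => iv (Nat.log 2 (A.H p2.dropLast) = i)
          (om2 p2 * iv (E c (A.fpp c p1) (A.fpp c p2) ∧
            A.H p2.dropLast ≤ A.H p1.dropLast) (om1 p1)))]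
        simp only [GG_iv' hc, hc.GG_smul]
      rw [e1, e2, ← hc.GG_addf]
      refine hc.GG_mono _ _ _ fun p1 _ => ?_
      rw [← hc.GG_addf]
      refine hc.GG_mono _ _ _ fun p2 _ => ?_
      by_cases h : E c (A.fpp c p1) (A.fpp c p2) ∧ P p1 p2 ∧
          min (Nat.log 2 (A.H p1.dropLast)) (Nat.log 2 (A.H p2.dropLast)) = i
      · rw [iv_pos h]
        rcases le_total (A.H p1.dropLast) (A.H p2.dropLast) with hh | hh
        · have hl := Nat.log_mono_right (b := 2) hh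
          rw [min_eq_left hl] at h
          refine le_trans (le_of_eq ?_) le_self_add
          rw [iv_pos h.2.2, iv_pos ⟨h.1, hh⟩]
        · have hl := Nat.log_mono_right (b := 2) hh
          rw [min_eq_right hl] at h
          refine le_trans (le_of_eq ?_) le_add_self
          rw [iv_pos h.2.2, iv_pos ⟨h.1, hh⟩, mul_comm]
      · rw [iv_neg h]; exact zero_le
    have hT1 := T1g hc (sum_NC (E := E) (c := c) hc hr (hI.chp i (by omega))) (y := x2 ^ 2)
      (S := A.S (2 ^ J)) (x := x1)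
      (om := om1) (F := fun p1 => A.GG r (fun p2 => iv (E c (A.fpp c p1) (A.fpp c p2) ∧
        A.H p1.dropLast ≤ A.H p2.dropLast) (om2 p2))) h1.2.2 (fun q b hq hqb => by
        have := inner_ge2 (E := E) hc hr hI.ev hcr hrJ hqb h2.2.2
        simpa only [List.dropLast_concat] using this)
    have hT2 := T1g hc (sum_NC (E := fun T x y => E T y x) (c := c) (r := r) hc hr
      (hI'.chp i (by omega))) (y := x1 ^ 2)
      (S := A.S (2 ^ J)) (x := x2)
      (om := om2) (F := fun p2 => A.GG r (fun p1 => iv (E c (A.fpp c p1) (A.fpp c p2) ∧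
        A.H p2.dropLast ≤ A.H p1.dropLast) (om1 p1))) h2.2.2 (fun q b hq hqb => by
        have := inner_ge2 (E := fun T x y => E T y x) hc hr hI'.ev hcr hrJ hqb h1.2.2
        simpa only [List.dropLast_concat] using this)
    refine (mul_le_mul' h3 le_rfl).trans ?_
    rw [add_mul]
    refine (add_le_add hT1 hT2).trans ?_
    have h6 : A.S r * A.GG c (fun p1 => A.GG c (fun p2 => iv (E c p1 p2) 1)) ≤ β0 := by
      rw [mul_comm]
      exact (mul_le_mul' le_rfl (hr.S_mono _ _ hrJ)).trans hI.k1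
    have h7 : A.S r * A.GG c (fun p1 => A.GG c (fun p2 => iv (E c p2 p1) 1)) ≤ β0 := by
      rw [mul_comm]
      exact (mul_le_mul' le_rfl (hr.S_mono _ _ hrJ)).trans hI'.k1
    have h8 := cheap_const (K0 := K0) hb h6 (J - i + 1)
    have h9 := cheap_const (K0 := K0) hb h7 (J - i + 1)
    calc _ ≤ x1 ^ 2 * (x2 ^ 2 * ((K0 + 1 + β0) * b ^ (J - i + 1))) +
          x2 ^ 2 * (x1 ^ 2 * ((K0 + 1 + β0) * b ^ (J - i + 1))) :=
          add_le_add (mul_le_mul' le_rfl (mul_le_mul' le_rfl h8))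
            (mul_le_mul' le_rfl (mul_le_mul' le_rfl h9))
      _ = _ := by unfold D2; ring

/-- The inputs for the event and the swapped event. -/
theorem inp_of (hc : Calc A) (hr : Ren A) (hra : ∀ n, RenAnti A n) (hEv : Evt E) {J a : ℕ}
    (ha : a ≤ J) {C b Q θ : ℝ≥0∞} (hb : 1 ≤ b) (h1 : K1H A E J C b) (h3 : K3H A E J C Q θ)
    (hCHP : CHP_stmt) : Inp A E J a (C * (2 * b) ^ a) C Q θ (4 * C + 2) b ∧
      Inp A (fun T x y => E T y x) J a (C * (2 * b) ^ a) C Q θ (4 * C + 2) b := by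
  have hJa : J - (J - a) = a := by omega
  have hS : A.S (2 ^ J) ≤ 2 ^ a * A.S (2 ^ (J - a)) := by
    have := S_dy hra (J - a) a
    rwa [Nat.sub_add_cancel ha] at this
  have hk1 : A.GG (2 ^ (J - a)) (fun p1 => A.GG (2 ^ (J - a)) (fun p2 =>
      iv (E (2 ^ (J - a)) p1 p2) 1)) * A.S (2 ^ J) ≤ C * (2 * b) ^ a := by
    calc _ ≤ A.GG (2 ^ (J - a)) (fun p1 => A.GG (2 ^ (J - a)) (fun p2 =>
          iv (E (2 ^ (J - a)) p1 p2) 1)) * (2 ^ a * A.S (2 ^ (J - a))) := mul_le_mul' le_rfl hS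
      _ = 2 ^ a * (A.GG (2 ^ (J - a)) (fun p1 => A.GG (2 ^ (J - a)) (fun p2 =>
          iv (E (2 ^ (J - a)) p1 p2) 1)) * A.S (2 ^ (J - a))) := by ring
      _ ≤ 2 ^ a * (C * b ^ (J - (J - a))) := mul_le_mul' le_rfl (h1 (J - a) (Nat.sub_le _ _))
      _ = _ := by rw [hJa, mul_pow]; ring
  have hchp := hCHP A E hc hr hra hEv J C b hb h1
  refine ⟨⟨hEv, hk1, fun i lo hi hlo => ?_, fun i hi => (hchp i hi).1⟩,
    ⟨Evt.swp hEv, ?_, fun i lo hi hlo => ?_, fun i hi => (hchp i hi).2⟩⟩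
  · have := (h3 (J - a) i lo (Nat.sub_le _ _) hi hlo).1
    rwa [hJa] at this
  · rw [Helper36.Eps.GG_comm]
    exact hk1
  · have := (h3 (J - a) i lo (Nat.sub_le _ _) hi hlo).2.1
    rw [hJa, Helper36.Eps.GG_comm] at this
    exact this

end

theorem fin_half {x : ℝ≥0∞} (h : x ≠ ⊤) : x ^ (1 / 2 : ℝ) ≠ ⊤ :=
  ENNReal.rpow_ne_top_of_nonneg (by norm_num) h

/-- Packet CSAG. -/
theorem CSAG (hCHP : CHP_stmt) (_hGSB : GSB_stmt) : CSAG_stmt := by
  intro C b Q θ Θ hC hQ hb hbt hΘ hΘt hlt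
  set q := (Θ ^ 2 * θ * b) ^ (1 / 2 : ℝ) with hq
  have hq1 : q < 1 := ENNReal.rpow_lt_one hlt (by norm_num)
  have hqinv : (1 - q)⁻¹ ≠ ⊤ := by
    rw [ENNReal.inv_ne_top]
    exact (tsub_pos_of_lt hq1).ne'
  set β0 : ℕ → ℝ≥0∞ := fun a => C * (2 * b) ^ a with hβ0
  have hβ0t : ∀ a, β0 a ≠ ⊤ := fun a => by rw [hβ0]; simp only; finiteness
  set DD : ℕ → ℝ≥0∞ := fun a => D2 (4 * C + 2) (β0 a) with hDD
  have hDDt : ∀ a, DD a ≠ ⊤ := fun a => by
    have := hβ0t a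
    rw [hDD]
    unfold D2
    simp only
    finiteness
  have hQh : Q ^ (1 / 2 : ℝ) ≠ ⊤ := fin_half hQ
  refine ⟨fun a a' => (a' + 1) * Θ ^ a' * (DD a * b ^ (a' + 1)) ^ (1 / 2 : ℝ) +
      β0 a ^ (1 / 2 : ℝ),
    fun a => (a + 1) * 2 ^ a * Θ ^ a * (β0 a * (DD a * b ^ (a + 1))) ^ (1 / 2 : ℝ) +
        (2 * C * DD a * b) ^ (1 / 2 : ℝ) * (Q ^ (1 / 2 : ℝ)) ^ a * (1 - q)⁻¹,
    max (1 / 2) q, ?_, ?_, ?_, ?_⟩
  · intro a a'
    have e1 := hDDt a
    have e2 := fin_half (x := DD a * b ^ (a' + 1)) (by finiteness)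
    have e3 := fin_half (hβ0t a)
    finiteness
  · intro a
    have e1 := hDDt a
    have e0 := hβ0t a
    have e2 := fin_half (x := β0 a * (DD a * b ^ (a + 1))) (by finiteness)
    have e3 := fin_half (x := 2 * C * DD a * b) (by finiteness)
    finiteness
  · refine max_lt ?_ hq1
    rw [one_div]
    exact ENNReal.inv_lt_one.2 (by norm_num)
  intro B D A E hc hr hra hEv J hK1H hK3H a a' r haJ hdep hcr P β hβ x1 x2 om1 om2
    ⟨_, hle1, hE1⟩ ⟨_, hle2, hE2⟩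
  obtain ⟨hI, hI'⟩ := inp_of hc hr hra hEv haJ hb hK1H hK3H hCHP
  rcases hdep with h0 | ⟨ρ, hρ, hrρ⟩
  · exfalso
    have : 1 ≤ 2 ^ (J - a) := Nat.one_le_two_pow
    omega
  subst hrρ
  have haρ : J - a ≤ ρ := (Nat.pow_le_pow_iff_right (by norm_num)).1 hcr
  have hr0 : (2 ^ ρ : ℕ) ≠ 0 := by positivity
  have hGS : ∀ φ : List B → ℝ≥0∞, GS A (2 ^ ρ) φ = A.GG (2 ^ ρ) φ := by
    intro φ
    unfold GS
    rw [if_neg hr0]
  simp only [hGS] at hβ ⊢
  have hτ : (1 / 2 : ℝ≥0∞) ≤ max (1 / 2) q := le_max_left _ _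
  have hτq : q ≤ max (1 / 2) q := le_max_right _ _
  have hfin : ∀ y : ℝ≥0∞, ((a' + 1) * Θ ^ a' * (DD a * b ^ (a' + 1)) ^ (1 / 2 : ℝ) *
      β ^ (1 / 2 : ℝ) + ((a + 1) * 2 ^ a * Θ ^ a *
        (β0 a * (DD a * b ^ (a + 1))) ^ (1 / 2 : ℝ) +
        (2 * C * DD a * b) ^ (1 / 2 : ℝ) * (Q ^ (1 / 2 : ℝ)) ^ a * (1 - q)⁻¹) *
        (max (1 / 2) q) ^ a') * y ≤
      (((a' + 1) * Θ ^ a' * (DD a * b ^ (a' + 1)) ^ (1 / 2 : ℝ) +
      β0 a ^ (1 / 2 : ℝ)) * β ^ (1 / 2 : ℝ) + ((a + 1) * 2 ^ a * Θ ^ a *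
        (β0 a * (DD a * b ^ (a + 1))) ^ (1 / 2 : ℝ) +
        (2 * C * DD a * b) ^ (1 / 2 : ℝ) * (Q ^ (1 / 2 : ℝ)) ^ a * (1 - q)⁻¹) *
        (max (1 / 2) q) ^ a') * y := by
    intro y
    refine mul_le_mul' (add_le_add (mul_le_mul' le_self_add le_rfl) le_rfl) le_rfl
  rcases hE1 with ⟨hx1, hnt1⟩ | ⟨lo1, hT1⟩
  · rcases hE2 with ⟨hx2, hnt2⟩ | ⟨lo2, hT2⟩
    · -- no tall end
      rw [hx1, hx2, mul_one, mul_one]
      set V := A.GG (2 ^ ρ) (fun p1 => A.GG (2 ^ ρ) (fun p2 => om1 p1 * om2 p2 *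
        iv (P p1 p2) (kt A E J Θ (2 ^ (J - a)) (2 ^ ρ) p1 p2))) with hV
      have hk : ∀ p1 p2, om1 p1 * om2 p2 *
          iv (P p1 p2) (kt A E J Θ (2 ^ (J - a)) (2 ^ ρ) p1 p2) ≤
          iv (E (2 ^ (J - a)) (A.fpp (2 ^ (J - a)) p1) (A.fpp (2 ^ (J - a)) p2) ∧ P p1 p2 ∧
            Scl A J (2 ^ ρ) a' p1 ∧ Scl A J (2 ^ ρ) a' p2) 1 := by
        intro p1 p2
        by_cases h0 : om1 p1 * om2 p2 = 0
        · rw [h0, zero_mul]; exact zero_le
        have n1 := hnt1 _ (left_ne_zero_of_mul h0)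
        have n2 := hnt2 _ (right_ne_zero_of_mul h0)
        have hkw : kw A J Θ (2 ^ ρ) p1 p2 = 1 := by
          unfold kw
          rw [tw_not n1, tw_not n2, max_self]
        unfold kt
        rw [hkw]
        by_cases hP : P p1 p2
        · rw [iv_pos hP]
          by_cases hE : E (2 ^ (J - a)) (A.fpp (2 ^ (J - a)) p1) (A.fpp (2 ^ (J - a)) p2)
          · rw [iv_pos hE, iv_pos ⟨hE, hP, fun h => absurd h n1, fun h => absurd h n2⟩]
            calc om1 p1 * om2 p2 * 1 ≤ 1 * 1 * 1 :=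
                  mul_le_mul' (mul_le_mul' (hle1 _) (hle2 _)) le_rfl
              _ = 1 := by ring
          · rw [iv_neg hE, mul_zero]; exact zero_le
        · rw [iv_neg hP, mul_zero]; exact zero_le
      have e1 : V * A.S (2 ^ J) ≤ β := by
        refine le_trans (mul_le_mul' ?_ le_rfl) hβ
        exact hc.GG_mono _ _ _ fun p1 _ => hc.GG_mono _ _ _ fun p2 _ => hk p1 p2
      have e2 : V * A.S (2 ^ J) ≤ β0 a := by
        refine le_trans (mul_le_mul' (pair_le (E := E) hc hcr fun p1 p2 => ?_) le_rfl) hI.k1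
        exact (hk p1 p2).trans (iv_mono (fun h => h.1) fun _ => le_rfl)
      have e3 := sqrt_two (y := 1) (A2 := β0 a) e1 (by rw [one_pow, one_mul]; exact e2)
      rw [mul_one, ENNReal.mul_rpow_of_nonneg _ _ (by norm_num : (0 : ℝ) ≤ 1 / 2),
        mul_comm (β ^ (1 / 2 : ℝ))] at e3
      exact e3.trans (le_add_right (mul_le_mul' le_add_self le_rfl))
    · -- second end tall
      have hβ' : A.GG (2 ^ ρ) (fun p1 => A.GG (2 ^ ρ) (fun p2 => iv (E (2 ^ (J - a))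
          (A.fpp (2 ^ (J - a)) p2) (A.fpp (2 ^ (J - a)) p1) ∧ P p2 p1 ∧
          Scl A J (2 ^ ρ) a' p1 ∧ Scl A J (2 ^ ρ) a' p2) 1)) * A.S (2 ^ J) ≤ β := by
        refine le_trans (le_of_eq ?_) hβ
        congr 1
        rw [Helper36.Eps.GG_comm]
        congr 1
        funext p1
        congr 1
        funext p2
        exact Helper36.Eps.iv_congr ⟨fun h => ⟨h.1, h.2.1, h.2.2.2, h.2.2.1⟩,
          fun h => ⟨h.1, h.2.1, h.2.2.2, h.2.2.1⟩⟩
      have h1 := tn (E := fun T x y => E T y x) hc hr haJ hρ haρ hb hΘ hτ hτq hI'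
        (P := fun x y => P y x) hβ' (om1 := om2) (om2 := om1) hle2 hle1 hT2 hnt1
      have h3 : A.GG (2 ^ ρ) (fun p1 => A.GG (2 ^ ρ) (fun p2 => om1 p1 * om2 p2 *
          iv (P p1 p2) (kt A E J Θ (2 ^ (J - a)) (2 ^ ρ) p1 p2))) =
          A.GG (2 ^ ρ) (fun p1 => A.GG (2 ^ ρ) (fun p2 =>
          om2 p1 * om1 p2 * iv (P p2 p1)
            (kt A (fun T x y => E T y x) J Θ (2 ^ (J - a)) (2 ^ ρ) p1 p2))) := by
        rw [Helper36.Eps.GG_comm]
        congr 1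
        funext p1
        congr 1
        funext p2
        unfold kt kw
        rw [max_comm, mul_comm (om1 p2)]
      rw [h3, hx1, mul_one]
      exact h1.trans (hfin _)
  · rcases hE2 with ⟨hx2, hnt2⟩ | ⟨lo2, hT2⟩
    · have h1 := tn hc hr haJ hρ haρ hb hΘ hτ hτq hI hβ (om1 := om1) (om2 := om2) hle1 hle2
        hT1 hnt2
      rw [hx2, mul_one]
      exact h1.trans (hfin _)
    · have h1 := tt2 hc hr haJ hρ haρ hb hΘ hτ hτq hI hI' hβ (om1 := om1) (om2 := om2) hle1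
        hle2 hT1 hT2
      rw [mul_assoc _ x1 x2]
      exact h1.trans (hfin _)

end Pool.Agent.Helper33.NSF
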